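import Pool.Agent.H73.CBD.Stmts

/-!
# LPK: the coefficients are Lipschitz in the direction
-/

set_option autoImplicit false

open Set Filter Topology

namespace Pool.CBD

theorem lpk_bound (h1 : ALGStmt) (h2 : TAUStmt) :
    ∀ (k : ℕ) (z : V), z ≠ 0 → ‖F k z‖ ≤ 2 ^ (k + 1) := by
  obtain ⟨-, -, -, -, -, -, -, hf, -⟩ := h1
  intro k
  induction k with
  | zero =>
    intro z hz
    have h := (h2 z hz).2.2.1
    show ‖nu z‖ ≤ 2 ^ (0 + 1)
    linarith [h, (by norm_num : (2 : ℝ) ^ (0 + 1) = 2)]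
  | succ k ih =>
    intro z hz
    show ‖F k (f z) * tau z‖ ≤ 2 ^ (k + 1 + 1)
    rw [norm_mul, pow_succ (2 : ℝ) (k + 1)]
    exact mul_le_mul (ih (f z) (hf z hz)) (h2 z hz).1 (norm_nonneg _) (by positivity)

theorem lpk_thm (h1 : ALGStmt) (h2 : TAUStmt) (h3 : LPFStmt) : LPKStmt := by
  have hb := lpk_bound h1 h2
  obtain ⟨-, -, -, -, -, -, -, hf, -⟩ := h1
  obtain ⟨L, hL, h3⟩ := h3
  refine ⟨4 * L, 4 * L, by linarith, by linarith, fun k => ?_⟩
  induction k with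
  | zero =>
    intro z w hz hw
    have h := (h3 z w hz hw).2.1
    show ‖nu z - nu w‖ ≤ 4 * L * (4 * L) ^ 0 * ‖nrm z - nrm w‖
    have h0 : 0 ≤ L * ‖nrm z - nrm w‖ := mul_nonneg (by linarith) (norm_nonneg _)
    rw [pow_zero, mul_one]
    linarith
  | succ k ih =>
    intro z w hz hw
    obtain ⟨ht, -, hn⟩ := h3 z w hz hw
    have hd : 0 ≤ ‖nrm z - nrm w‖ := norm_nonneg _
    set d := ‖nrm z - nrm w‖ with hdd
    show ‖F k (f z) * tau z - F k (f w) * tau w‖ ≤ 4 * L * (4 * L) ^ (k + 1) * d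
    have e1 : F k (f z) * tau z - F k (f w) * tau w =
        (F k (f z) - F k (f w)) * tau z + F k (f w) * (tau z - tau w) := by ring
    rw [e1]
    refine (norm_add_le _ _).trans ?_
    rw [norm_mul, norm_mul]
    have hA : 0 ≤ 4 * L * (4 * L) ^ k := by positivity
    have g1 : ‖F k (f z) - F k (f w)‖ ≤ 4 * L * (4 * L) ^ k * (L * d) :=
      (ih (f z) (f w) (hf z hz) (hf w hw)).trans (mul_le_mul_of_nonneg_left hn hA)
    have g2 : ‖F k (f z) - F k (f w)‖ * ‖tau z‖ ≤ 4 * L * (4 * L) ^ k * (L * d) * 2 :=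
      mul_le_mul g1 (h2 z hz).1 (norm_nonneg _) (by positivity)
    have g3 : ‖F k (f w)‖ * ‖tau z - tau w‖ ≤ 2 ^ (k + 1) * (L * d) :=
      mul_le_mul (hb k (f w) (hf w hw)) ht (norm_nonneg _) (by positivity)
    have g4 : (2 : ℝ) ^ (k + 1) ≤ (4 * L) ^ (k + 1) :=
      pow_le_pow_left₀ (by norm_num) (by linarith) _
    have hLd : 0 ≤ L * d := mul_nonneg (by linarith) hd
    have g5 := mul_le_mul_of_nonneg_right g4 hLd
    have e2 : 4 * L * (4 * L) ^ (k + 1) * d = 4 * ((4 * L) ^ (k + 1) * (L * d)) := by ring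
    have e3 : 4 * L * (4 * L) ^ k * (L * d) * 2 = 2 * ((4 * L) ^ (k + 1) * (L * d)) := by
      rw [pow_succ]; ring
    rw [e2]
    rw [e3] at g2
    have hX : 0 ≤ (4 * L) ^ (k + 1) * (L * d) := by positivity
    linarith

end Pool.CBD
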